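import Pool.Agent.helper53.ORE.Spec

/-! Row ore:NSV. -/

set_option autoImplicit false

namespace Pool.Agent.ORE

open Module Pool.Agent.GS

theorem NSV_refl {F V : Type} [Field F] [AddCommGroup V] [Module F V] (Q : QuadraticForm F V) :
    (pb Q).IsRefl := by
  intro x y h
  rw [pb_symm, h]

theorem NSV_nondeg {F V : Type} [Field F] [AddCommGroup V] [Module F V] [FiniteDimensional F V]
    {Q : QuadraticForm F V} (h : Nd Q) : (pb Q).Nondegenerate := by
  refine ⟨fun x hx => h x hx, fun x hx => h x fun y => ?_⟩
  rw [pb_symm]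
  exact hx y

theorem NSV : NSV_stmt := by
  intro F V _ _ _ _ _ Q h2 hnd k x hk
  have : CharP F 2 := charP2 h2
  set W : Submodule F V := Submodule.span F (Set.range x) with hW
  have hWdim : finrank F W ≤ k := by
    have h3 : finrank F (Submodule.span F (Set.range x)) ≤ Fintype.card (Fin k) :=
      finrank_range_le_card _
    rwa [Fintype.card_fin] at h3
  set D : Submodule F V := (pb Q).orthogonal W with hD
  have hDdim : finrank F D = finrank F V - finrank F W :=
    LinearMap.BilinForm.finrank_orthogonal (NSV_nondeg hnd) W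
  have hDD : finrank F ((pb Q).orthogonal D) = finrank F V - finrank F D :=
    LinearMap.BilinForm.finrank_orthogonal (NSV_nondeg hnd) D
  have hmem : ∀ c ∈ D, ∀ i, pb Q c (x i) = 0 := by
    intro c hc i
    rw [hD, LinearMap.BilinForm.mem_orthogonal_iff] at hc
    have := hc (x i) (Submodule.subset_span ⟨i, rfl⟩)
    rw [pb_symm]
    exact this
  obtain ⟨c, hc, hQc⟩ : ∃ c ∈ D, Q c ≠ 0 := by
    by_contra hcon
    push Not at hcon
    have hle : D ≤ (pb Q).orthogonal D := by
      intro c hc
      rw [LinearMap.BilinForm.mem_orthogonal_iff]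
      intro d hd
      have h1 := Q_add Q d c
      rw [hcon _ (D.add_mem hd hc), hcon d hd, hcon c hc, zero_add, zero_add] at h1
      exact h1.symm
    have h3 := Submodule.finrank_mono hle
    omega
  obtain ⟨s, hs⟩ := FiniteField.isSquare_of_char_two (F := F) (ringChar.eq F 2) (Q c)
  have hs0 : s ≠ 0 := by
    rintro rfl
    rw [mul_zero] at hs
    exact hQc hs
  refine ⟨s⁻¹ • c, fun i => hmem _ (D.smul_mem _ hc) i, ?_⟩
  rw [Q_smul, hs]
  field_simp

end Pool.Agent.ORE
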