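import Pool.Agent.helper53.ORE.Spec

/-! Row ore:TVW. -/

set_option autoImplicit false

namespace Pool.Agent.ORE

open Module Pool.Agent.GS

theorem TVW (st : ST1_stmt) (cl : CLQ_stmt) : TVW_stmt := by
  intro F V _ _ _ _ _ Q h2 hnd hn y c a ha hG b hb
  have : CharP F 2 := charP2 h2
  obtain ⟨s, hs⟩ := FiniteField.isSquare_of_char_two (F := F) (ringChar.eq F 2) (Q a / Q b)
  have hs0 : s ≠ 0 := by
    rintro rfl
    rw [mul_zero] at hs
    exact (div_ne_zero ha hb) hs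
  have hQ : Q (s • b) = Q a := by
    rw [Q_smul, pow_two, ← hs]
    field_simp
  have hb' : Q (s • b) ≠ 0 := by rw [hQ]; exact ha
  have hne : ∀ v : V, Q v ≠ 0 → ∀ c : F, v ≠ c • (0 : V) := by
    intro v hv c h
    apply hv
    rw [h, smul_zero, Q_zero]
  obtain ⟨g, hg, _, hga⟩ := st Q h2 hnd hn 0 a (s • b) (hne a ha) (hne _ hb') hQ.symm
    (by rw [map_zero, map_zero])
  rw [← rq_smul hs0 b]
  rcases cl Q h2 hnd hn (s • b) hb' g hg with h | h
  · have h1 := hG.conj h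
    rwa [rq_conj_mem (OmQ_le Q h), hga] at h1
  · have h1 := hG.conj h
    rwa [rq_conj_mem (OmQ_le Q h), Equiv.Perm.mul_apply, hga, rq_self h2 hb'] at h1

end Pool.Agent.ORE
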